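import Mathlib

open Filter Topology

/-!
# The rate of convergence of the limiting densities of optimal covers by geometric progressions

The upper bound is by progressions of ratio two. For the lower bound let `F` be a cover of
`{1, …, N}`; every top element `y` (`N / 2 < y ≤ N`) is in a member `f y` of `F`, and these members
are different. Most elements between `N / 4` and `N / 2` force the members `f y`, `4 ∣ y`, to have
ratio two, up to a number of exceptions which is at most the number of the other members; but then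
the multiples of four up to `N / 2 ^ k` can only be in exceptional members.
-/

set_option autoImplicit false

namespace Pool.Agent.Results.MP_af7016_co.ExactRate

/-- The `k`-term geometric progression `{a, a r, a r^2, ..., a r^(k-1)}`. -/
def gp (k a r : ℕ) : Finset ℕ := (Finset.range k).image fun j => a * r ^ j

/-- `F` is a `k`-GP cover of `[N] = {1, ..., N}`: every member of the finite family `F` is a
`k`-term geometric progression with positive integer first term and integer ratio at least `2`,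
and every element of `[N]` lies in some member of `F`. -/
def IsGPCover (k N : ℕ) (F : Finset (Finset ℕ)) : Prop :=
  (∀ S ∈ F, ∃ a r : ℕ, 1 ≤ a ∧ 2 ≤ r ∧ S = gp k a r) ∧
    ∀ n : ℕ, 1 ≤ n → n ≤ N → ∃ S ∈ F, n ∈ S

/-- `m_k(N)`: the smallest size of a `k`-GP cover of `[N]`. -/
noncomputable def minCover (k N : ℕ) : ℕ :=
  sInf {c : ℕ | ∃ F : Finset (Finset ℕ), IsGPCover k N F ∧ F.card = c}

/-- The lower limiting density `liminf_N m_k(N) / N`. -/
noncomputable def lowerGamma (k : ℕ) : ℝ :=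
  liminf (fun N : ℕ => (minCover k N : ℝ) / N) atTop

/-- The upper limiting density `limsup_N m_k(N) / N`. -/
noncomputable def upperGamma (k : ℕ) : ℝ :=
  limsup (fun N : ℕ => (minCover k N : ℝ) / N) atTop

/-- Two elements of one progression of integer ratio at least `2`, both at most `N` and both
larger than `N / 2`, are equal. -/
lemma gp_inj {k a r N x y : ℕ} (hr : 2 ≤ r) (hx : x ∈ gp k a r) (hy : y ∈ gp k a r)
    (hxN : x ≤ N) (hyN : y ≤ N) (hx2 : N < 2 * x) (hy2 : N < 2 * y) : x = y := by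
  simp only [gp, Finset.mem_image, Finset.mem_range] at hx hy
  obtain ⟨i, _, rfl⟩ := hx
  obtain ⟨j, _, rfl⟩ := hy
  rcases lt_trichotomy i j with h | h | h
  · exfalso
    obtain ⟨d, rfl⟩ := Nat.exists_eq_add_of_lt h
    have h1 : a * r ^ (i + d + 1) = (a * r ^ i) * r ^ (d + 1) := by ring
    have h2 : 2 ≤ r ^ (d + 1) := le_trans hr (Nat.le_self_pow (by omega) r)
    have h3 : (a * r ^ i) * 2 ≤ (a * r ^ i) * r ^ (d + 1) := Nat.mul_le_mul_left _ h2
    omega
  · rw [h]
  · exfalso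
    obtain ⟨d, rfl⟩ := Nat.exists_eq_add_of_lt h
    have h1 : a * r ^ (j + d + 1) = (a * r ^ j) * r ^ (d + 1) := by ring
    have h2 : 2 ≤ r ^ (d + 1) := le_trans hr (Nat.le_self_pow (by omega) r)
    have h3 : (a * r ^ j) * 2 ≤ (a * r ^ j) * r ^ (d + 1) := Nat.mul_le_mul_left _ h2
    omega

/-- Every cover of `[N]` has at least `N / 2` members. -/
lemma card_lower {k N : ℕ} {F : Finset (Finset ℕ)} (h : IsGPCover k N F) :
    N ≤ 2 * F.card := by
  classical
  have key : (Finset.Ioc (N / 2) N).card ≤ F.card := by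
    have hex : ∀ n ∈ Finset.Ioc (N / 2) N, ∃ S ∈ F, n ∈ S := by
      intro n hn
      rw [Finset.mem_Ioc] at hn
      exact h.2 n (by omega) hn.2
    choose! f hf using hex
    refine Finset.card_le_card_of_injOn f (fun n hn => (hf n hn).1) ?_
    intro x hx y hy hxy
    have hx' := hx
    have hy' := hy
    rw [Finset.mem_coe, Finset.mem_Ioc] at hx hy
    obtain ⟨a, r, _, hr, hS⟩ := h.1 (f x) (hf x hx').1
    have h1 : x ∈ gp k a r := hS ▸ (hf x hx').2
    have h2 : y ∈ gp k a r := by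
      have := (hf y hy').2
      rw [← hxy, hS] at this
      exact this
    exact gp_inj hr h1 h2 hx.2 hy.2 (by omega) (by omega)
  rw [Nat.card_Ioc] at key
  omega

/-- The starting points of the progressions of ratio `2` that are used in the upper bound. -/
def starts (k N : ℕ) : Finset ℕ :=
  (Finset.Icc 1 N).filter fun n => k ∣ padicValNat 2 n

lemma starts_cover {k N : ℕ} (hk : 1 ≤ k) :
    IsGPCover k N ((starts k N).image fun a => gp k a 2) := by
  refine ⟨?_, ?_⟩
  · intro S hS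
    rw [Finset.mem_image] at hS
    obtain ⟨a, ha, rfl⟩ := hS
    rw [starts, Finset.mem_filter, Finset.mem_Icc] at ha
    exact ⟨a, 2, ha.1.1, le_refl _, rfl⟩
  · intro n hn1 hnN
    have hn0 : n ≠ 0 := by omega
    set v := padicValNat 2 n with hv
    have hdvd : 2 ^ v ∣ n := pow_padicValNat_dvd
    obtain ⟨b, hb⟩ := hdvd
    have hb0 : b ≠ 0 := by rintro rfl; simp at hb; omega
    have hbv : padicValNat 2 b = 0 := by
      have h1 : padicValNat 2 n = padicValNat 2 (2 ^ v) + padicValNat 2 b := by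
        conv_lhs => rw [hb]
        exact padicValNat.mul (by positivity) hb0
      rw [padicValNat.prime_pow] at h1
      omega
    have hdm := Nat.div_add_mod v k
    have hpow : 2 ^ v = 2 ^ (k * (v / k)) * 2 ^ (v % k) := by
      rw [← pow_add, hdm]
    refine ⟨gp k (2 ^ (k * (v / k)) * b) 2, ?_, ?_⟩
    · rw [Finset.mem_image]
      refine ⟨2 ^ (k * (v / k)) * b, ?_, rfl⟩
      rw [starts, Finset.mem_filter, Finset.mem_Icc]
      refine ⟨⟨?_, ?_⟩, ?_⟩
      · have : 0 < 2 ^ (k * (v / k)) * b := by positivity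
        omega
      · have h1 : 2 ^ (k * (v / k)) * b ≤ n := by
          rw [hb, hpow]
          have : 1 ≤ 2 ^ (v % k) := Nat.one_le_two_pow
          nlinarith [Nat.zero_le (2 ^ (k * (v / k)) * b)]
        omega
      · rw [padicValNat.mul (by positivity) hb0, padicValNat.prime_pow, hbv]
        exact ⟨v / k, by ring⟩
    · rw [gp, Finset.mem_image]
      refine ⟨v % k, ?_, ?_⟩
      · rw [Finset.mem_range]; exact Nat.mod_lt _ (by omega)
      · conv_rhs => rw [hb, hpow]
        ring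

lemma starts_card {k N : ℕ} : (starts k N).card ≤ (N + 1) / 2 + N / 2 ^ k := by
  classical
  have hsub : starts k N ⊆
      ((Finset.range ((N + 1) / 2)).image fun i => 2 * i + 1) ∪
        ((Finset.Icc 1 (N / 2 ^ k)).image fun i => 2 ^ k * i) := by
    intro n hn
    rw [starts, Finset.mem_filter, Finset.mem_Icc] at hn
    obtain ⟨⟨h1, h2⟩, h3⟩ := hn
    rw [Finset.mem_union]
    by_cases hodd : n % 2 = 1
    · left
      rw [Finset.mem_image]
      exact ⟨n / 2, by rw [Finset.mem_range]; omega, by omega⟩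
    · right
      have hev : 2 ∣ n := by omega
      have hv1 : 1 ≤ padicValNat 2 n := one_le_padicValNat_of_dvd (by omega) hev
      have hkv : k ≤ padicValNat 2 n := Nat.le_of_dvd hv1 h3
      have hd : 2 ^ k ∣ n := dvd_trans (pow_dvd_pow 2 hkv) pow_padicValNat_dvd
      obtain ⟨c, hc⟩ := hd
      rw [Finset.mem_image]
      refine ⟨c, ?_, hc.symm⟩
      rw [Finset.mem_Icc]
      have hp : 0 < 2 ^ k := by positivity
      constructor
      · rcases Nat.eq_zero_or_pos c with h | h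
        · subst h; omega
        · exact h
      · rw [Nat.le_div_iff_mul_le hp]
        rw [mul_comm, ← hc]; exact h2
  refine le_trans (Finset.card_le_card hsub) (le_trans (Finset.card_union_le _ _) ?_)
  refine add_le_add (le_trans Finset.card_image_le ?_) (le_trans Finset.card_image_le ?_)
  · rw [Finset.card_range]
  · rw [Nat.card_Icc, Nat.add_sub_cancel]

lemma minCover_mem {k N : ℕ} (hk : 1 ≤ k) :
    ∃ F : Finset (Finset ℕ), IsGPCover k N F ∧ F.card = minCover k N :=
  Nat.sInf_mem (s := {c : ℕ | ∃ F : Finset (Finset ℕ), IsGPCover k N F ∧ F.card = c})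
    ⟨_, _, starts_cover hk, rfl⟩

lemma minCover_lower {k N : ℕ} (hk : 1 ≤ k) : N ≤ 2 * minCover k N := by
  obtain ⟨F, hF, hc⟩ := minCover_mem (k := k) (N := N) hk
  rw [← hc]
  exact card_lower hF

lemma minCover_upper {k N : ℕ} (hk : 1 ≤ k) : minCover k N ≤ (N + 1) / 2 + N / 2 ^ k := by
  refine le_trans (Nat.sInf_le ⟨_, starts_cover hk, rfl⟩) ?_
  exact le_trans Finset.card_image_le starts_card

lemma ratio_lower {k N : ℕ} (hk : 1 ≤ k) (hN : 1 ≤ N) : (1 / 2 : ℝ) ≤ (minCover k N : ℝ) / N := by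
  have h : (N : ℝ) ≤ 2 * minCover k N := by exact_mod_cast minCover_lower hk
  have hN' : (0 : ℝ) < N := by exact_mod_cast hN
  rw [le_div_iff₀ hN']
  linarith

lemma ratio_upper {k N : ℕ} (hk : 1 ≤ k) (hN : 1 ≤ N) :
    (minCover k N : ℝ) / N ≤ 1 / 2 + 1 / 2 ^ k + 1 / (N : ℝ) := by
  have hN' : (0 : ℝ) < N := by exact_mod_cast hN
  have h : (minCover k N : ℝ) ≤ (((N + 1) / 2 : ℕ) : ℝ) + ((N / 2 ^ k : ℕ) : ℝ) := by
    exact_mod_cast minCover_upper hk
  have h1 : (((N + 1) / 2 : ℕ) : ℝ) ≤ ((N + 1 : ℕ) : ℝ) / ((2 : ℕ) : ℝ) := Nat.cast_div_le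
  have h2 : ((N / 2 ^ k : ℕ) : ℝ) ≤ (N : ℝ) / ((2 ^ k : ℕ) : ℝ) := Nat.cast_div_le
  push_cast at h1 h2
  have h3 : (minCover k N : ℝ) ≤ (N + 1) / 2 + N / 2 ^ k := by linarith
  rw [div_le_iff₀ hN']
  have h4 : (1 / 2 + 1 / 2 ^ k + 1 / (N : ℝ)) * N = N / 2 + N / 2 ^ k + 1 := by
    field_simp
  rw [h4]
  linarith

lemma upperGamma_le {k : ℕ} (hk : 1 ≤ k) : upperGamma k ≤ 1 / 2 + 1 / 2 ^ k := by
  unfold upperGamma
  have hlim : Tendsto (fun N : ℕ => (1 / 2 + 1 / 2 ^ k + 1 / (N : ℝ) : ℝ)) atTop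
      (𝓝 (1 / 2 + 1 / 2 ^ k + 0)) :=
    tendsto_const_nhds.add tendsto_one_div_atTop_nhds_zero_nat
  rw [add_zero] at hlim
  rw [← hlim.limsup_eq]
  refine limsup_le_limsup ?_ ?_ ?_
  · filter_upwards [eventually_ge_atTop 1] with N hN
    exact ratio_upper hk hN
  · refine IsBoundedUnder.isCoboundedUnder_le ?_
    refine ⟨0, ?_⟩
    rw [eventually_map]
    filter_upwards with N
    positivity
  · exact hlim.isBoundedUnder_le

lemma lower_le_upper {k : ℕ} (hk : 1 ≤ k) : lowerGamma k ≤ upperGamma k := by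
  unfold lowerGamma upperGamma
  refine liminf_le_limsup ?_ ?_
  · refine ⟨1 / 2 + 1 / 2 ^ k + 1, ?_⟩
    rw [eventually_map]
    filter_upwards [eventually_ge_atTop 1] with N hN
    refine le_trans (ratio_upper hk hN) ?_
    have : (1 : ℝ) / N ≤ 1 := by
      rw [div_le_one (by exact_mod_cast hN)]
      exact_mod_cast hN
    linarith
  · refine ⟨0, ?_⟩
    rw [eventually_map]
    filter_upwards with N
    positivity


section Lower

/-- two elements of one progression -/
lemma gp_lt {k a r x y : ℕ} (hr : 2 ≤ r) (hx : x ∈ gp k a r) (hy : y ∈ gp k a r)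
    (h : x < y) : ∃ t, 1 ≤ t ∧ t < k ∧ y = x * r ^ t := by
  simp only [gp, Finset.mem_image, Finset.mem_range] at hx hy
  obtain ⟨i, hi, rfl⟩ := hx
  obtain ⟨j, hj, rfl⟩ := hy
  have hij : i < j := by
    by_contra hcon
    have h1 : r ^ j ≤ r ^ i := Nat.pow_le_pow_right (by omega) (not_lt.1 hcon)
    exact absurd h (not_lt.2 (Nat.mul_le_mul_left a h1))
  refine ⟨j - i, by omega, by omega, ?_⟩
  rw [mul_assoc, ← pow_add, Nat.add_sub_cancel' hij.le]

/-- `S` is a `k`-term geometric progression -/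
def IsGP (k : ℕ) (S : Finset ℕ) : Prop := ∃ a r : ℕ, 1 ≤ a ∧ 2 ≤ r ∧ S = gp k a r

lemma IsGP.lt {k : ℕ} {S : Finset ℕ} (hS : IsGP k S) {x y : ℕ} (hx : x ∈ S) (hy : y ∈ S)
    (h : x < y) : 2 * x ≤ y := by
  obtain ⟨a, r, -, hr, rfl⟩ := hS
  obtain ⟨t, ht, -, rfl⟩ := gp_lt hr hx hy h
  have h2 : 2 ≤ r ^ t := hr.trans (Nat.le_self_pow (by omega) r)
  nlinarith [Nat.mul_le_mul_left x h2]

/-- A set of numbers between `M / 2` and `M` covered by the progressions in `G` has at most as many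
elements as `G`. -/
lemma card_le_of_cover {k M : ℕ} {P : Finset ℕ} {G : Finset (Finset ℕ)}
    (hG : ∀ S ∈ G, IsGP k S) (hP : ∀ x ∈ P, x ≤ M ∧ M < 2 * x)
    (hc : ∀ x ∈ P, ∃ S ∈ G, x ∈ S) : P.card ≤ G.card := by
  classical
  choose! f hf using hc
  refine Finset.card_le_card_of_injOn f (fun x hx => (hf x hx).1) ?_
  intro x hx y hy hxy
  have hx1 := hf x hx
  have hy1 := hf y hy
  rw [← hxy] at hy1
  have h1 := hP x hx
  have h2 := hP y hy
  rcases lt_trichotomy x y with h | h | h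
  · have := (hG _ hx1.1).lt hx1.2 hy1.2 h
    omega
  · exact h
  · have := (hG _ hx1.1).lt hy1.2 hx1.2 h
    omega

/-- The main lower bound. -/
lemma lower_count {k N : ℕ} (hk : 1 ≤ k) {F : Finset (Finset ℕ)} (h : IsGPCover k N F) :
    (N - N / 2) ≤ F.card ∧
      N / 2 ^ (k + 2) - N / 2 ^ (k + 3) ≤ 3 * (F.card - (N - N / 2)) := by
  classical
  have hF : ∀ S ∈ F, IsGP k S := fun S hS => h.1 S hS
  set T : Finset ℕ := Finset.Ioc (N / 2) N with hT
  have hTc : T.card = N - N / 2 := by rw [hT, Nat.card_Ioc]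
  have hTm : ∀ y ∈ T, y ≤ N ∧ N < 2 * y := by
    intro y hy
    rw [hT, Finset.mem_Ioc] at hy
    omega
  have hex : ∀ y ∈ T, ∃ S ∈ F, y ∈ S := by
    intro y hy
    have := hTm y hy
    exact h.2 y (by omega) this.1
  have hTF : T.card ≤ F.card := card_le_of_cover (M := N) hF hTm hex
  choose! f hf using hex
  have hinj : Set.InjOn f T := by
    intro x hx y hy hxy
    have hx1 := hf x hx
    have hy1 := hf y hy
    rw [← hxy] at hy1
    have h1 := hTm x hx
    have h2 := hTm y hy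
    rcases lt_trichotomy x y with h' | h' | h'
    · have := (hF _ hx1.1).lt hx1.2 hy1.2 h'
      omega
    · exact h'
    · have := (hF _ hx1.1).lt hy1.2 hx1.2 h'
      omega
  -- the other members of the cover
  set X : Finset (Finset ℕ) := F \ T.image f with hX
  have hXc : X.card = F.card - T.card := by
    rw [hX, Finset.card_sdiff_of_subset, Finset.card_image_of_injOn hinj]
    intro S hS
    rw [Finset.mem_image] at hS
    obtain ⟨y, hy, rfl⟩ := hS
    exact (hf y hy).1
  have hXF : ∀ S ∈ X, IsGP k S := fun S hS => hF S (Finset.mem_sdiff.1 hS).1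
  have hcov : ∀ z, 1 ≤ z → z ≤ N → (¬ ∃ S ∈ X, z ∈ S) → ∃ y ∈ T, z ∈ f y := by
    intro z hz1 hz2 hz3
    obtain ⟨S, hS, hzS⟩ := h.2 z hz1 hz2
    by_contra hcon
    push Not at hcon
    refine hz3 ⟨S, Finset.mem_sdiff.2 ⟨hS, fun hS' => ?_⟩, hzS⟩
    rw [Finset.mem_image] at hS'
    obtain ⟨y, hy, rfl⟩ := hS'
    exact hcon y hy hzS
  -- the elements between `N / 4` and `N / 2` covered by the other members
  set B₁ : Finset ℕ := (Finset.Ioc (N / 2 / 2) (N / 2)).filter fun z => ∃ S ∈ X, z ∈ S with hB₁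
  have hB₁c : B₁.card ≤ X.card := by
    refine card_le_of_cover (M := N / 2) hXF ?_ ?_
    · intro x hx
      rw [hB₁, Finset.mem_filter, Finset.mem_Ioc] at hx
      omega
    · intro x hx
      rw [hB₁, Finset.mem_filter] at hx
      exact hx.2
  have hB₁n : ∀ z, z ∉ B₁ → N < 4 * z → 2 * z ≤ N → ¬ ∃ S ∈ X, z ∈ S := by
    intro z hz h1 h2 h3
    exact hz (by rw [hB₁, Finset.mem_filter, Finset.mem_Ioc]; exact ⟨⟨by omega, by omega⟩, h3⟩)
  -- elements above `N / 3`
  have step1 : ∀ z, z ∉ B₁ → N < 3 * z → 2 * z ≤ N → z ∈ f (2 * z) := by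
    intro z hz h1 h2
    obtain ⟨y, hy, hzy⟩ := hcov z (by omega) (by omega) (hB₁n z hz (by omega) h2)
    have hy1 := hTm y hy
    obtain ⟨a, r, -, hr, hS⟩ := hF _ (hf y hy).1
    have hyS := (hf y hy).2
    have hzS := hzy
    rw [hS] at hyS hzS
    obtain ⟨t, ht, -, hyt⟩ := gp_lt hr hzS hyS (by omega)
    have h3 : 2 ≤ r ^ t := hr.trans (Nat.le_self_pow (by omega) r)
    have h4 : r ^ t < 3 := by
      by_contra hcon
      have : z * 3 ≤ z * r ^ t := Nat.mul_le_mul_left z (not_lt.1 hcon)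
      omega
    have h5 : r ^ t = 2 := by omega
    rw [h5, mul_comm] at hyt
    rw [← hyt]
    exact hzy
  -- even elements between `N / 4` and `N / 3`
  have step2 : ∀ z, 2 * z ∉ B₁ → 3 * z ∉ B₁ → N < 8 * z → 4 * z ≤ N →
      2 * z ∈ f (4 * z) := by
    intro z h0 h0' h1 h2
    rcases Nat.lt_or_ge N (6 * z) with h6 | h6
    · have := step1 (2 * z) h0 (by omega) (by omega)
      rwa [show 2 * (2 * z) = 4 * z by ring] at this
    · obtain ⟨y, hy, hzy⟩ := hcov (2 * z) (by omega) (by omega)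
        (hB₁n (2 * z) h0 (by omega) (by omega))
      have hy1 := hTm y hy
      obtain ⟨a, r, -, hr, hS⟩ := hF _ (hf y hy).1
      have hyS := (hf y hy).2
      have hzS := hzy
      rw [hS] at hyS hzS
      obtain ⟨t, ht, -, hyt⟩ := gp_lt hr hzS hyS (by omega)
      have h3 : 2 ≤ r ^ t := hr.trans (Nat.le_self_pow (by omega) r)
      have h4 : r ^ t < 4 := by
        by_contra hcon
        have : 2 * z * 4 ≤ 2 * z * r ^ t := Nat.mul_le_mul_left _ (not_lt.1 hcon)
        omega
      rcases (show r ^ t = 2 ∨ r ^ t = 3 by omega) with h5 | h5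
      · rw [h5, show 2 * z * 2 = 4 * z by ring] at hyt
        rw [← hyt]
        exact hzy
      · exfalso
        rw [h5, show 2 * z * 3 = 2 * (3 * z) by ring] at hyt
        have h7 := step1 (3 * z) h0' (by omega) (by omega)
        rw [← hyt] at h7
        have := (hF _ (hf y hy).1).lt hzy h7 (by omega)
        omega
  -- the small multiples of four
  set Xs : Finset ℕ := (Finset.Ioc (N / 2 ^ (k + 3)) (N / 2 ^ (k + 2))).image fun i => 4 * i
    with hXs
  have hXsc : Xs.card = N / 2 ^ (k + 2) - N / 2 ^ (k + 3) := by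
    rw [hXs, Finset.card_image_of_injective _ (fun a b hab => by simpa using hab), Nat.card_Ioc]
  set M := N / 2 ^ k with hM
  have hM2 : N / 2 ^ (k + 2) = M / 4 := by
    rw [hM, Nat.div_div_eq_div_mul, pow_add]
    norm_num
  have hM3 : N / 2 ^ (k + 3) = M / 8 := by
    rw [hM, Nat.div_div_eq_div_mul, pow_add]
    norm_num
  have hXsm : ∀ x ∈ Xs, x ≤ M ∧ M < 2 * x ∧ 4 ∣ x := by
    intro x hx
    rw [hXs, Finset.mem_image] at hx
    obtain ⟨i, hi, rfl⟩ := hx
    rw [Finset.mem_Ioc, hM2, hM3] at hi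
    exact ⟨by omega, by omega, dvd_mul_right 4 i⟩
  -- three parts
  set YB : Finset ℕ := T.filter fun y => 4 ∣ y ∧ y / 2 ∈ B₁ with hYB
  set YC : Finset ℕ := T.filter fun y => 4 ∣ y ∧ 3 * (y / 4) ∈ B₁ with hYC
  have hYBc : YB.card ≤ B₁.card := by
    refine Finset.card_le_card_of_injOn (fun y => y / 2) ?_ ?_
    · intro y hy
      rw [Finset.mem_coe, hYB, Finset.mem_filter] at hy
      exact hy.2.2
    · intro y hy y' hy' hyy
      rw [Finset.mem_coe, hYB, Finset.mem_filter] at hy hy'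
      simp only at hyy
      omega
  have hYCc : YC.card ≤ B₁.card := by
    refine Finset.card_le_card_of_injOn (fun y => 3 * (y / 4)) ?_ ?_
    · intro y hy
      rw [Finset.mem_coe, hYC, Finset.mem_filter] at hy
      exact hy.2.2
    · intro y hy y' hy' hyy
      rw [Finset.mem_coe, hYC, Finset.mem_filter] at hy hy'
      simp only at hyy
      omega
  have hXscov : ∀ x ∈ Xs, ∃ S ∈ X ∪ (YB.image f ∪ YC.image f), x ∈ S := by
    intro x hx
    obtain ⟨hx1, hx2, hx4⟩ := hXsm x hx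
    by_cases hxX : ∃ S ∈ X, x ∈ S
    · obtain ⟨S, hS, hxS⟩ := hxX
      exact ⟨S, Finset.mem_union_left _ hS, hxS⟩
    · have hMN : M ≤ N / 2 := by
        rw [hM]
        refine Nat.div_le_div_left ?_ (by norm_num)
        calc 2 = 2 ^ 1 := rfl
          _ ≤ 2 ^ k := Nat.pow_le_pow_right (by norm_num) hk
      obtain ⟨y, hy, hxy⟩ := hcov x (by omega) (by omega) hxX
      have hy1 := hTm y hy
      obtain ⟨a, r, -, hr, hS⟩ := hF _ (hf y hy).1
      have hyS := (hf y hy).2
      have hxS := hxy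
      rw [hS] at hyS hxS
      obtain ⟨t, ht, htk, hyt⟩ := gp_lt hr hxS hyS (by omega)
      have hy4 : 4 ∣ y := hyt ▸ Dvd.dvd.mul_right hx4 _
      by_cases hb : y / 2 ∈ B₁
      · refine ⟨f y, Finset.mem_union_right _ (Finset.mem_union_left _
          (Finset.mem_image_of_mem f ?_)), hxy⟩
        rw [hYB, Finset.mem_filter]
        exact ⟨hy, hy4, hb⟩
      · by_cases hc : 3 * (y / 4) ∈ B₁
        · refine ⟨f y, Finset.mem_union_right _ (Finset.mem_union_right _
            (Finset.mem_image_of_mem f ?_)), hxy⟩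
          rw [hYC, Finset.mem_filter]
          exact ⟨hy, hy4, hc⟩
        · exfalso
          obtain ⟨z, rfl⟩ := hy4
          have hz2 : 4 * z / 2 = 2 * z := by omega
          have hz4 : 4 * z / 4 = z := by omega
          rw [hz2] at hb
          rw [hz4] at hc
          have h7 := step2 z hb hc (by omega) (by omega)
          rw [hS] at h7
          obtain ⟨s, hs, -, hys⟩ := gp_lt hr h7 hyS (by omega)
          have h8 : 2 ≤ r ^ s := hr.trans (Nat.le_self_pow (by omega) r)
          have h9 : r ^ s = 2 := by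
            have h10 : 2 * z * r ^ s = 2 * z * 2 := by rw [← hys]; ring
            exact Nat.eq_of_mul_eq_mul_left (by omega) h10
          have hr2 : r ≤ 2 := by
            calc r ≤ r ^ s := Nat.le_self_pow (by omega) r
              _ = 2 := h9
          have hr2' : r = 2 := by omega
          rw [hr2'] at hyt
          -- the element `x` is too small
          have h11 : x * 2 ^ t ≤ x * 2 ^ (k - 1) :=
            Nat.mul_le_mul_left x (Nat.pow_le_pow_right (by norm_num) (by omega))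
          have h12 : x * 2 ^ k ≤ N := by
            calc x * 2 ^ k ≤ M * 2 ^ k := Nat.mul_le_mul_right _ hx1
              _ ≤ N := Nat.div_mul_le_self N _
          have h13 : x * 2 ^ k = 2 * (x * 2 ^ (k - 1)) := by
            obtain ⟨l, rfl⟩ : ∃ l, k = l + 1 := ⟨k - 1, by omega⟩
            rw [Nat.add_sub_cancel, pow_succ]
            ring
          omega
  have hfin : Xs.card ≤ (X ∪ (YB.image f ∪ YC.image f)).card := by
    refine card_le_of_cover (M := M) (k := k) ?_ (fun x hx => ⟨(hXsm x hx).1, (hXsm x hx).2.1⟩)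
      hXscov
    intro S hS
    rw [Finset.mem_union, Finset.mem_union, Finset.mem_image, Finset.mem_image] at hS
    rcases hS with hS | ⟨y, hy, rfl⟩ | ⟨y, hy, rfl⟩
    · exact hXF S hS
    · exact hF _ (hf y (Finset.mem_filter.1 hy).1).1
    · exact hF _ (hf y (Finset.mem_filter.1 hy).1).1
  have h14 : (X ∪ (YB.image f ∪ YC.image f)).card ≤ X.card + (YB.card + YC.card) :=
    (Finset.card_union_le _ _).trans (Nat.add_le_add_left ((Finset.card_union_le _ _).trans
      (Nat.add_le_add Finset.card_image_le Finset.card_image_le)) _)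
  rw [hXsc] at hfin
  rw [hTc] at hTF hXc
  exact ⟨hTF, by omega⟩

lemma minCover_rate {k N : ℕ} (hk : 1 ≤ k) :
    (1 / 2 + 1 / (24 * 2 ^ k) : ℝ) * N - 1 ≤ minCover k N := by
  obtain ⟨F, hF, hc⟩ := minCover_mem (k := k) (N := N) hk
  obtain ⟨h1, h2⟩ := lower_count hk hF
  rw [hc] at h1 h2
  have h3 : N / 2 ^ (k + 2) + 3 * (N - N / 2) ≤ N / 2 ^ (k + 3) + 3 * minCover k N := by omega
  have h3' : ((N / 2 ^ (k + 2) : ℕ) : ℝ) + 3 * ((N - N / 2 : ℕ) : ℝ) ≤
      ((N / 2 ^ (k + 3) : ℕ) : ℝ) + 3 * minCover k N := by exact_mod_cast h3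
  have h4 : ((N / 2 ^ (k + 3) : ℕ) : ℝ) ≤ (N : ℝ) / 2 ^ (k + 3) := by
    have := @Nat.cast_div_le ℝ _ _ _ N (2 ^ (k + 3))
    push_cast at this
    exact this
  have h5 : (N : ℝ) / 2 ^ (k + 2) - 1 ≤ ((N / 2 ^ (k + 2) : ℕ) : ℝ) := by
    have h6 : N < 2 ^ (k + 2) * (N / 2 ^ (k + 2) + 1) := by
      have := Nat.lt_mul_div_succ N (show 0 < 2 ^ (k + 2) by positivity)
      exact this
    have h7 : (N : ℝ) < 2 ^ (k + 2) * (((N / 2 ^ (k + 2) : ℕ) : ℝ) + 1) := by exact_mod_cast h6
    rw [sub_le_iff_le_add, div_le_iff₀ (by positivity)]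
    linarith
  have h8 : (N : ℝ) / 2 ≤ ((N - N / 2 : ℕ) : ℝ) := by
    have h9 : N ≤ 2 * (N - N / 2) := by omega
    have h10 : (N : ℝ) ≤ 2 * ((N - N / 2 : ℕ) : ℝ) := by exact_mod_cast h9
    linarith
  have h11 : (N : ℝ) / 2 ^ (k + 2) = 2 * ((N : ℝ) / 2 ^ (k + 3)) := by
    rw [pow_succ 2 (k + 2)]
    field_simp
  have h12 : (1 / 2 + 1 / (24 * 2 ^ k) : ℝ) * N = N / 2 + (N : ℝ) / 2 ^ (k + 3) / 3 := by
    rw [pow_add]
    field_simp
    ring
  rw [h12]
  linarith

lemma lowerGamma_rate {k : ℕ} (hk : 1 ≤ k) : (1 / 2 + 1 / (24 * 2 ^ k) : ℝ) ≤ lowerGamma k := by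
  unfold lowerGamma
  have hlim : Tendsto (fun N : ℕ => (1 / 2 + 1 / (24 * 2 ^ k) - 1 / (N : ℝ) : ℝ)) atTop
      (𝓝 (1 / 2 + 1 / (24 * 2 ^ k) - 0)) :=
    tendsto_const_nhds.sub tendsto_one_div_atTop_nhds_zero_nat
  rw [sub_zero] at hlim
  rw [← hlim.liminf_eq]
  refine liminf_le_liminf ?_ ?_ ?_
  · filter_upwards [eventually_ge_atTop 1] with N hN
    have hN' : (0 : ℝ) < N := by exact_mod_cast hN
    rw [le_div_iff₀ hN']
    have h1 := minCover_rate (k := k) (N := N) hk
    have h2 : (1 / 2 + 1 / (24 * 2 ^ k) - 1 / (N : ℝ)) * N =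
        (1 / 2 + 1 / (24 * 2 ^ k)) * N - 1 := by
      field_simp
    rw [h2]
    exact h1
  · exact hlim.isBoundedUnder_ge
  · refine IsBoundedUnder.isCoboundedUnder_ge ?_
    refine ⟨1 / 2 + 1 / 2 ^ k + 1, ?_⟩
    rw [eventually_map]
    filter_upwards [eventually_ge_atTop 1] with N hN
    refine le_trans (ratio_upper hk hN) ?_
    have : (1 : ℝ) / N ≤ 1 := by
      rw [div_le_one (by exact_mod_cast hN)]
      exact_mod_cast hN
    linarith

end Lower

/-- **The rate of convergence.** For every `k ≥ 1`,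
`1 / 2 + 1 / (24 * 2 ^ k) ≤ liminf m_k(N) / N ≤ limsup m_k(N) / N ≤ 1 / 2 + 1 / 2 ^ k`.
So both limiting densities tend to `1 / 2` exactly at the rate `2 ^ (-k)`, and they are larger than
`1 / 2` for every `k`. -/
theorem result :
    (∀ k : ℕ, 1 ≤ k → (1 / 2 + 1 / (24 * 2 ^ k) : ℝ) ≤ lowerGamma k ∧
      lowerGamma k ≤ upperGamma k ∧ upperGamma k ≤ 1 / 2 + 1 / 2 ^ k) ∧
    (∀ k N : ℕ, 1 ≤ k → (1 / 2 + 1 / (24 * 2 ^ k) : ℝ) * N - 1 ≤ minCover k N ∧
      (minCover k N : ℝ) ≤ (1 / 2 + 1 / 2 ^ k) * N + 1) ∧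
    Tendsto lowerGamma atTop (𝓝 (1 / 2)) ∧ Tendsto upperGamma atTop (𝓝 (1 / 2)) := by
  have h1 : ∀ k : ℕ, 1 ≤ k → (1 / 2 + 1 / (24 * 2 ^ k) : ℝ) ≤ lowerGamma k ∧
      lowerGamma k ≤ upperGamma k ∧ upperGamma k ≤ 1 / 2 + 1 / 2 ^ k :=
    fun k hk => ⟨lowerGamma_rate hk, lower_le_upper hk, upperGamma_le hk⟩
  have hp : Tendsto (fun k : ℕ => (1 / 2 + 1 / 2 ^ k : ℝ)) atTop (𝓝 (1 / 2)) := by
    have h1 : Tendsto (fun k : ℕ => ((1 / 2 : ℝ)) ^ k) atTop (𝓝 0) :=
      tendsto_pow_atTop_nhds_zero_of_lt_one (by norm_num) (by norm_num)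
    have h2 : Tendsto (fun k : ℕ => (1 / 2 + (1 / 2 : ℝ) ^ k)) atTop (𝓝 (1 / 2 + 0)) :=
      tendsto_const_nhds.add h1
    rw [add_zero] at h2
    refine h2.congr fun k => ?_
    rw [one_div_pow]
  have hpos : ∀ k : ℕ, (0 : ℝ) ≤ 1 / (24 * 2 ^ k) := fun k => by positivity
  refine ⟨h1, fun k N hk => ⟨minCover_rate hk, ?_⟩, ?_, ?_⟩
  · rcases Nat.eq_zero_or_pos N with rfl | hN
    · have h0 : minCover k 0 = 0 := by
        have : minCover k 0 ≤ 0 := by
          have := minCover_upper (k := k) (N := 0) hk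
          simpa using this
        omega
      simp [h0]
    · have hN' : (0 : ℝ) < N := by exact_mod_cast hN
      have h2 := ratio_upper (k := k) hk (show 1 ≤ N from hN)
      rw [div_le_iff₀ hN'] at h2
      have h3 : (1 / 2 + 1 / 2 ^ k + 1 / (N : ℝ)) * N = (1 / 2 + 1 / 2 ^ k) * N + 1 := by
        field_simp
      rwa [h3] at h2
  · refine tendsto_of_tendsto_of_tendsto_of_le_of_le' tendsto_const_nhds hp ?_ ?_
    · filter_upwards [eventually_ge_atTop 1] with k hk
      have := (h1 k hk).1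
      linarith [hpos k]
    · filter_upwards [eventually_ge_atTop 1] with k hk
      exact (h1 k hk).2.1.trans (h1 k hk).2.2
  · refine tendsto_of_tendsto_of_tendsto_of_le_of_le' tendsto_const_nhds hp ?_ ?_
    · filter_upwards [eventually_ge_atTop 1] with k hk
      have h2 := (h1 k hk).1
      have h3 := (h1 k hk).2.1
      linarith [hpos k]
    · filter_upwards [eventually_ge_atTop 1] with k hk using (h1 k hk).2.2

end Pool.Agent.Results.MP_af7016_co.ExactRate
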